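import Mathlib

/-! Helper file: radicals and the parametrisation `x^3 + y^3 = z^2`. -/

namespace Pool.Agent.H78R2.Abc

/-- product of the distinct primes dividing `n` -/
def rad (n : ℕ) : ℕ := n.primeFactors.prod id

lemma rad_pos (n : ℕ) : 0 < rad n :=
  Finset.prod_pos fun p hp => (Nat.prime_of_mem_primeFactors hp).pos

lemma rad_le {n : ℕ} (hn : n ≠ 0) : rad n ≤ n :=
  Nat.le_of_dvd (Nat.pos_of_ne_zero hn) (Nat.prod_primeFactors_dvd n)

lemma rad_le_of_dvd {m n : ℕ} (h : m ∣ n) (hn : n ≠ 0) : rad m ≤ rad n := by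
  unfold rad
  exact Finset.prod_le_prod_of_subset_of_one_le' (Nat.primeFactors_mono h hn)
    fun p hp _ => (Nat.prime_of_mem_primeFactors hp).one_le

lemma rad_mul_le {m n : ℕ} (hm : m ≠ 0) (hn : n ≠ 0) : rad (m * n) ≤ rad m * rad n := by
  unfold rad
  rw [Nat.primeFactors_mul hm hn, ← Finset.prod_union_inter]
  exact Nat.le_mul_of_pos_right _
    (Finset.prod_pos fun p hp => (Nat.prime_of_mem_primeFactors (Finset.mem_inter.1 hp).1).pos)

lemma rad_mul_le' {m n : ℕ} (hm : m ≠ 0) (hn : n ≠ 0) : rad (m * n) ≤ rad m * n :=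
  (rad_mul_le hm hn).trans (Nat.mul_le_mul_left _ (rad_le hn))

lemma rad_eq_of_primeFactors {m n : ℕ} (h : m.primeFactors = n.primeFactors) : rad m = rad n := by
  unfold rad; rw [h]

/-- the three forms -/
def X (a b : ℕ) : ℕ := a * ((3 * a + 2 * b) * (3 * a ^ 2 + 6 * a * b + 4 * b ^ 2))
def Y (a b : ℕ) : ℕ := 4 * (b * (a + b) * (3 * a ^ 2 + 3 * a * b + b ^ 2))
def Z (a b : ℕ) : ℕ := 27 * a ^ 6 + 108 * a ^ 5 * b + 180 * a ^ 4 * b ^ 2 + 180 * a ^ 3 * b ^ 3 +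
  120 * a ^ 2 * b ^ 4 + 48 * a * b ^ 5 + 8 * b ^ 6

lemma identity (a b : ℕ) : X a b ^ 3 + Y a b ^ 3 = Z a b ^ 2 := by
  unfold X Y Z; ring

lemma bezout1 (a b : ℤ) (c : ℤ) (hc : c = a + b) :
    (9 * a ^ 3 - 8 * c ^ 3) * (a * ((3 * a + 2 * b) * (3 * a ^ 2 + 6 * a * b + 4 * b ^ 2))) +
    16 * a * c ^ 2 * (4 * (b * (a + b) * (3 * a ^ 2 + 3 * a * b + b ^ 2))) = 9 * a ^ 7 := by
  subst hc; ring

lemma bezout2 (a b : ℤ) (c : ℤ) (hc : c = a + b) :
    (9 * c ^ 3 + a ^ 3) * (4 * (b * (a + b) * (3 * a ^ 2 + 3 * a * b + b ^ 2))) +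
    4 * a ^ 2 * c * (a * ((3 * a + 2 * b) * (3 * a ^ 2 + 6 * a * b + 4 * b ^ 2))) = 36 * c ^ 7 := by
  subst hc; ring

/-- a common prime factor of the two forms is 2 or 3 -/
lemma prime_dvd {a b p : ℕ} (hp : p.Prime) (hab : Nat.Coprime a b) (hX : p ∣ X a b)
    (hY : p ∣ Y a b) : p = 2 ∨ p = 3 := by
  have hp' : Prime (p : ℤ) := Nat.prime_iff_prime_int.1 hp
  have hX' : (p : ℤ) ∣ (a : ℤ) * ((3 * a + 2 * b) * (3 * a ^ 2 + 6 * a * b + 4 * b ^ 2)) := by
    have := Int.natCast_dvd_natCast.2 hX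
    simpa [X] using this
  have hY' : (p : ℤ) ∣ 4 * ((b : ℤ) * (a + b) * (3 * a ^ 2 + 3 * a * b + b ^ 2)) := by
    have := Int.natCast_dvd_natCast.2 hY
    simpa [Y] using this
  have h1 : (p : ℤ) ∣ 9 * (a : ℤ) ^ 7 := by
    rw [← bezout1 a b (a + b) rfl]
    exact dvd_add (dvd_mul_of_dvd_right hX' _) (dvd_mul_of_dvd_right hY' _)
  have h2 : (p : ℤ) ∣ 36 * ((a : ℤ) + b) ^ 7 := by
    rw [← bezout2 a b (a + b) rfl]
    exact dvd_add (dvd_mul_of_dvd_right hY' _) (dvd_mul_of_dvd_right hX' _)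
  have h36 : (p : ℤ) ∣ 36 → p = 2 ∨ p = 3 := by
    intro h
    have h' : p ∣ 36 := by exact_mod_cast h
    have h3 : p ∣ 2 ^ 2 * 3 ^ 2 := by norm_num; exact h'
    rcases (Nat.Prime.dvd_mul hp).1 h3 with h | h
    · exact Or.inl ((Nat.prime_dvd_prime_iff_eq hp Nat.prime_two).1 (hp.dvd_of_dvd_pow h))
    · exact Or.inr ((Nat.prime_dvd_prime_iff_eq hp Nat.prime_three).1 (hp.dvd_of_dvd_pow h))
  rcases hp'.dvd_or_dvd h2 with h | h
  · exact h36 h
  · rcases hp'.dvd_or_dvd h1 with h' | h'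
    · exact h36 (h'.trans (by norm_num))
    · exfalso
      have ha : (p : ℤ) ∣ a := hp'.dvd_of_dvd_pow h'
      have hc : (p : ℤ) ∣ (a : ℤ) + b := hp'.dvd_of_dvd_pow h
      have hb : (p : ℤ) ∣ b := by
        have := dvd_sub hc ha; simpa using this
      have ha' : p ∣ a := by exact_mod_cast ha
      have hb' : p ∣ b := by exact_mod_cast hb
      have := Nat.dvd_gcd ha' hb'
      rw [hab] at this
      exact hp.one_lt.ne' (Nat.dvd_one.1 this)


lemma three_dvd_iff (n : ℕ) : 3 ∣ n ↔ ((n : ℕ) : ZMod 3) = 0 := (ZMod.natCast_eq_zero_iff n 3).symm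

lemma two_dvd_iff (n : ℕ) : 2 ∣ n ↔ ((n : ℕ) : ZMod 2) = 0 := (ZMod.natCast_eq_zero_iff n 2).symm

lemma coprime_of {x y : ℕ} (h : ∀ p : ℕ, p.Prime → p ∣ x → p ∣ y → p = 2 ∨ p = 3)
    (h2 : ¬ (2 ∣ x ∧ 2 ∣ y)) (h3 : ¬ (3 ∣ x ∧ 3 ∣ y)) : Nat.Coprime x y := by
  rw [Nat.coprime_iff_gcd_eq_one]
  by_contra hne
  obtain ⟨p, hp, hpd⟩ := Nat.exists_prime_and_dvd hne
  have hx := hpd.trans (Nat.gcd_dvd_left x y)
  have hy := hpd.trans (Nat.gcd_dvd_right x y)
  rcases h p hp hx hy with rfl | rfl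
  · exact h2 ⟨hx, hy⟩
  · exact h3 ⟨hx, hy⟩

/-- normalisation of the parametrised solution -/
lemma normal {a b : ℕ} (hab : Nat.Coprime a b) :
    ∃ k x y : ℕ, 0 < k ∧ k ≤ 6 ∧ X a b = k ^ 2 * x ∧ Y a b = k ^ 2 * y ∧ Nat.Coprime x y := by
  have hpr : ∀ {k x y : ℕ}, X a b = k ^ 2 * x → Y a b = k ^ 2 * y →
      ∀ p : ℕ, p.Prime → p ∣ x → p ∣ y → p = 2 ∨ p = 3 := by
    intro k x y hx hy p hp h1 h2
    exact prime_dvd hp hab (hx ▸ dvd_mul_of_dvd_right h1 _) (hy ▸ dvd_mul_of_dvd_right h2 _)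
  have h2ab : ¬ (2 ∣ a ∧ 2 ∣ b) := fun h => by
    have := Nat.dvd_gcd h.1 h.2
    rw [hab] at this; omega
  have h3ab : ¬ (3 ∣ a ∧ 3 ∣ b) := fun h => by
    have := Nat.dvd_gcd h.1 h.2
    rw [hab] at this; omega
  by_cases h2 : 2 ∣ a
  · obtain ⟨α, rfl⟩ := h2
    have hb2 : ¬ 2 ∣ b := fun h => h2ab ⟨dvd_mul_right _ _, h⟩
    by_cases h3 : 3 ∣ b
    · obtain ⟨β, rfl⟩ := h3
      have ha3 : ¬ 3 ∣ 2 * α := fun h => h3ab ⟨h, dvd_mul_right _ _⟩
      have hX : X (2 * α) (3 * β) = 6 ^ 2 * (4 * α * (α + β) * (α ^ 2 + 3 * α * β + 3 * β ^ 2)) := by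
        unfold X; ring
      have hY : Y (2 * α) (3 * β) = 6 ^ 2 * (β * (2 * α + 3 * β) *
          (4 * α ^ 2 + 6 * α * β + 3 * β ^ 2)) := by
        unfold Y; ring
      refine ⟨6, _, _, by norm_num, le_rfl, hX, hY, coprime_of (hpr hX hY) ?_ ?_⟩
      · rintro ⟨-, h⟩
        rw [two_dvd_iff] at h hb2
        push_cast at h hb2
        generalize (α : ZMod 2) = u at *
        generalize (β : ZMod 2) = v at *
        revert u v; decide
      · rintro ⟨h, h'⟩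
        rw [three_dvd_iff] at h h' ha3
        push_cast at h h' ha3
        generalize (α : ZMod 3) = u at *
        generalize (β : ZMod 3) = v at *
        revert u v; decide
    · have hX : X (2 * α) b = 2 ^ 2 * (4 * α * (3 * α + b) * (3 * α ^ 2 + 3 * α * b + b ^ 2)) := by
        unfold X; ring
      have hY : Y (2 * α) b = 2 ^ 2 * (b * (2 * α + b) *
          (12 * α ^ 2 + 6 * α * b + b ^ 2)) := by
        unfold Y; ring
      refine ⟨2, _, _, by norm_num, by norm_num, hX, hY, coprime_of (hpr hX hY) ?_ ?_⟩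
      · rintro ⟨-, h⟩
        rw [two_dvd_iff] at h hb2
        push_cast at h hb2
        generalize (α : ZMod 2) = u at *
        generalize (b : ZMod 2) = v at *
        revert u v; decide
      · rintro ⟨h, h'⟩
        rw [three_dvd_iff] at h h' h3
        push_cast at h h' h3
        generalize (α : ZMod 3) = u at *
        generalize (b : ZMod 3) = v at *
        revert u v; decide
  · by_cases h3 : 3 ∣ b
    · obtain ⟨β, rfl⟩ := h3
      have ha3 : ¬ 3 ∣ a := fun h => h3ab ⟨h, dvd_mul_right _ _⟩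
      have hX : X a (3 * β) = 3 ^ 2 * (a * (a + 2 * β) * (a ^ 2 + 6 * a * β + 12 * β ^ 2)) := by
        unfold X; ring
      have hY : Y a (3 * β) = 3 ^ 2 * (4 * β * (a + 3 * β) *
          (a ^ 2 + 3 * a * β + 3 * β ^ 2)) := by
        unfold Y; ring
      refine ⟨3, _, _, by norm_num, by norm_num, hX, hY, coprime_of (hpr hX hY) ?_ ?_⟩
      · rintro ⟨h, -⟩
        rw [two_dvd_iff] at h h2
        push_cast at h h2
        generalize (a : ZMod 2) = u at *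
        generalize (β : ZMod 2) = v at *
        revert u v; decide
      · rintro ⟨h, h'⟩
        rw [three_dvd_iff] at h h' ha3
        push_cast at h h' ha3
        generalize (a : ZMod 3) = u at *
        generalize (β : ZMod 3) = v at *
        revert u v; decide
    · have hX : X a b = 1 ^ 2 * X a b := by ring
      have hY : Y a b = 1 ^ 2 * Y a b := by ring
      refine ⟨1, _, _, by norm_num, by norm_num, hX, hY, coprime_of (hpr hX hY) ?_ ?_⟩
      · rintro ⟨h, -⟩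
        unfold X at h
        rw [two_dvd_iff] at h h2
        push_cast at h h2
        generalize (a : ZMod 2) = u at *
        generalize (b : ZMod 2) = v at *
        revert u v; decide
      · rintro ⟨h, h'⟩
        unfold X at h
        unfold Y at h'
        rw [three_dvd_iff] at h h' h3
        push_cast at h h' h3
        generalize (a : ZMod 3) = u at *
        generalize (b : ZMod 3) = v at *
        revert u v; decide

/-- For coprime positive `a, b` with sum `c` there are coprime positive `x, y` and `z` with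
`x^3 + y^3 = z^2`, `c^12 ≤ 729 z^2` and `rad(xyz) ≤ 3888 c^11 rad(abc)`. -/
lemma exists_solution {a b : ℕ} (ha : 0 < a) (hb : 0 < b) (hab : Nat.Coprime a b) :
    ∃ x y z : ℕ, 0 < x ∧ 0 < y ∧ 0 < z ∧ Nat.Coprime x y ∧ x ^ 3 + y ^ 3 = z ^ 2 ∧
      (a + b) ^ 12 ≤ 729 * z ^ 2 ∧
      rad (x * y * z) ≤ 3888 * (a + b) ^ 11 * rad (a * b * (a + b)) := by
  obtain ⟨k, x, y, hk, hk6, hX, hY, hxy⟩ := normal hab
  have hXpos : 0 < X a b := by unfold X; positivity
  have hYpos : 0 < Y a b := by unfold Y; positivity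
  have hZpos : 0 < Z a b := by unfold Z; positivity
  have hx : 0 < x := Nat.pos_of_ne_zero fun h => by rw [h] at hX; omega
  have hy : 0 < y := Nat.pos_of_ne_zero fun h => by rw [h] at hY; omega
  have hid := identity a b
  have hdiv : (k ^ 3) ^ 2 ∣ Z a b ^ 2 := by
    rw [← hid, hX, hY]
    exact ⟨x ^ 3 + y ^ 3, by ring⟩
  obtain ⟨z, hz⟩ := (Nat.pow_dvd_pow_iff two_ne_zero).1 hdiv
  have hzpos : 0 < z := Nat.pos_of_ne_zero fun h => by rw [h] at hz; omega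
  have hsol : x ^ 3 + y ^ 3 = z ^ 2 := by
    have h1 : k ^ 6 * (x ^ 3 + y ^ 3) = k ^ 6 * z ^ 2 := by
      have := hid
      rw [hX, hY, hz] at this
      calc k ^ 6 * (x ^ 3 + y ^ 3) = (k ^ 2 * x) ^ 3 + (k ^ 2 * y) ^ 3 := by ring
        _ = (k ^ 3 * z) ^ 2 := this
        _ = k ^ 6 * z ^ 2 := by ring
    exact Nat.eq_of_mul_eq_mul_left (by positivity) h1
  refine ⟨x, y, z, hx, hy, hzpos, hxy, hsol, ?_, ?_⟩
  · have h1 : 8 * (a + b) ^ 6 ≤ Z a b := by
      unfold Z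
      have : 27 * a ^ 6 + 108 * a ^ 5 * b + 180 * a ^ 4 * b ^ 2 + 180 * a ^ 3 * b ^ 3 +
        120 * a ^ 2 * b ^ 4 + 48 * a * b ^ 5 + 8 * b ^ 6 = 8 * (a + b) ^ 6 +
        (19 * a ^ 6 + 60 * a ^ 5 * b + 60 * a ^ 4 * b ^ 2 + 20 * a ^ 3 * b ^ 3) := by ring
      omega
    have h2 : Z a b ≤ 6 ^ 3 * z := by
      rw [hz]; exact Nat.mul_le_mul_right _ (Nat.pow_le_pow_left hk6 3)
    have h3 : (8 * (a + b) ^ 6) ^ 2 ≤ (6 ^ 3 * z) ^ 2 := Nat.pow_le_pow_left (h1.trans h2) 2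
    have h4 : (8 * (a + b) ^ 6) ^ 2 = 64 * (a + b) ^ 12 := by ring
    have h5 : (6 ^ 3 * z) ^ 2 = 64 * (729 * z ^ 2) := by ring
    omega
  · have hXYZ : X a b * Y a b * Z a b ≠ 0 := by positivity
    have h1 : rad (x * y * z) ≤ rad (X a b * Y a b * Z a b) := by
      apply rad_le_of_dvd _ hXYZ
      rw [hX, hY, hz]
      exact mul_dvd_mul (mul_dvd_mul (dvd_mul_left _ _) (dvd_mul_left _ _)) (dvd_mul_left _ _)
    set W := (3 * a + 2 * b) * (3 * a ^ 2 + 6 * a * b + 4 * b ^ 2) *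
      (4 * (3 * a ^ 2 + 3 * a * b + b ^ 2)) * Z a b with hW
    have h2 : X a b * Y a b * Z a b = (a * b * (a + b)) * W := by
      rw [hW]; unfold X Y; ring
    have hWpos : W ≠ 0 := by
      have : 0 < W := by rw [hW]; positivity
      omega
    have h3 : rad (X a b * Y a b * Z a b) ≤ rad (a * b * (a + b)) * W := by
      rw [h2]; exact rad_mul_le' (by positivity) hWpos
    have hWle : W ≤ 3888 * (a + b) ^ 11 := by
      have e1 : 3 * a + 2 * b ≤ 3 * (a + b) := by omega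
      have e2 : 3 * a ^ 2 + 6 * a * b + 4 * b ^ 2 ≤ 4 * (a + b) ^ 2 := by
        have : 4 * (a + b) ^ 2 = (3 * a ^ 2 + 6 * a * b + 4 * b ^ 2) + (a ^ 2 + 2 * a * b) := by ring
        omega
      have e3 : 4 * (3 * a ^ 2 + 3 * a * b + b ^ 2) ≤ 4 * (3 * (a + b) ^ 2) := by
        have : 3 * (a + b) ^ 2 = (3 * a ^ 2 + 3 * a * b + b ^ 2) + (3 * a * b + 2 * b ^ 2) := by ring
        omega
      have e4 : Z a b ≤ 27 * (a + b) ^ 6 := by
        unfold Z
        have : 27 * (a + b) ^ 6 = (27 * a ^ 6 + 108 * a ^ 5 * b + 180 * a ^ 4 * b ^ 2 +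
          180 * a ^ 3 * b ^ 3 + 120 * a ^ 2 * b ^ 4 + 48 * a * b ^ 5 + 8 * b ^ 6) +
          (54 * a ^ 5 * b + 225 * a ^ 4 * b ^ 2 + 360 * a ^ 3 * b ^ 3 + 285 * a ^ 2 * b ^ 4 +
          114 * a * b ^ 5 + 19 * b ^ 6) := by ring
        omega
      calc W ≤ (3 * (a + b)) * (4 * (a + b) ^ 2) * (4 * (3 * (a + b) ^ 2)) *
            (27 * (a + b) ^ 6) := by
            rw [hW]
            exact Nat.mul_le_mul (Nat.mul_le_mul (Nat.mul_le_mul e1 e2) e3) e4
        _ = 3888 * (a + b) ^ 11 := by ring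
    calc rad (x * y * z) ≤ rad (a * b * (a + b)) * W := h1.trans h3
      _ ≤ rad (a * b * (a + b)) * (3888 * (a + b) ^ 11) := Nat.mul_le_mul_left _ hWle
      _ = 3888 * (a + b) ^ 11 * rad (a * b * (a + b)) := by ring

end Pool.Agent.H78R2.Abc
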